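import Mathlib
import Pool.Agent.Q201.ScottI
import Pool.Agent.Q201.QG
import Pool.Agent.Q201.Comp

set_option autoImplicit false

/-!
# `G_I` need not be an `∃∀`-elementary subgroup of a profinite permutation group

Let `f` be a computable injection with noncomputable range `K`.  Let `Q` be the generalized
quaternion group of order `60`; it acts on a set of five points through the dihedral group of order
ten, and regularly on sixty points.  The group `G` is the image of the group of all sequences
`h : ℕ → Q`; `h j` acts on the first five points of the `j`th block and `h (f j)` acts on the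
remaining sixty points of the `j`th block.  So `G` is the product of copies of `Q` (for the indices in
`K`) and of the dihedral group (for the indices outside `K`).  Its tree is computable.  The sentence
`∃ x ∀ y ((y² = 1 → xy = yx) ∧ (y³ = 1 → x y x⁻¹ y = 1))` holds in `G`, and every witness in `G`
(even in `G_I` with `y` ranging over `G_I`) moves the first five points of the `j`th block iff
`j ∈ K`.  So the sentence fails in `G_I` when `K ∉ I`, and there are Scott ideals like that.
-/

namespace Pool.Agent.Results.MP_eef9c4_lc.ExistsForallFails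

open FirstOrder FirstOrder.Language
open Pool.Agent.Q201.SI
open QuaternionGroup

/-! ### The language of groups -/

/-- Operation symbols of the language of groups. -/
inductive GFunc : ℕ → Type
  | one : GFunc 0
  | inv : GFunc 1
  | mul : GFunc 2

/-- The language of groups. -/
def grp : FirstOrder.Language := ⟨GFunc, fun _ => Empty⟩

/-- A group as a structure in the language of groups. -/
instance grpStructure (G : Type*) [Group G] : grp.Structure G where
  funMap := fun {_} c x => match c with
    | .one => 1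
    | .inv => (x 0)⁻¹
    | .mul => x 0 * x 1
  RelMap := fun {_} r _ => r.elim

/-- Formulas of the form `∀ y₁ ... ∀ yₘ ψ` with `ψ` quantifier free. -/
inductive IsForall {α : Type} : ∀ {n : ℕ}, grp.BoundedFormula α n → Prop
  | of_qf {n : ℕ} {φ : grp.BoundedFormula α n} : φ.IsQF → IsForall φ
  | all {n : ℕ} {φ : grp.BoundedFormula α (n + 1)} : IsForall φ → IsForall φ.all

/-- Formulas of the form `∃ x₁ ... ∃ xₖ ∀ y₁ ... ∀ yₘ ψ` with `ψ` quantifier free. -/
inductive IsExistsForall {α : Type} : ∀ {n : ℕ}, grp.BoundedFormula α n → Prop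
  | of_forall {n : ℕ} {φ : grp.BoundedFormula α n} : IsForall φ → IsExistsForall φ
  | ex {n : ℕ} {φ : grp.BoundedFormula α (n + 1)} : IsExistsForall φ → IsExistsForall φ.ex

/-! ### Profinite subgroups of `S_∞` and their trees -/

/-- The topology of pointwise convergence on `S_∞`. -/
@[reducible] def permTopology : TopologicalSpace (Equiv.Perm ℕ) :=
  TopologicalSpace.induced (fun g : Equiv.Perm ℕ => (g : ℕ → ℕ)) inferInstance

/-- A profinite subgroup of `S_∞`: closed, with finite orbits. -/
structure IsProfinite (G : Subgroup (Equiv.Perm ℕ)) : Prop where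
  closed : @IsClosed (Equiv.Perm ℕ) permTopology (G : Set (Equiv.Perm ℕ))
  orbits : ∀ i : ℕ, {j : ℕ | ∃ g ∈ G, g i = j}.Finite

/-- The string `g(0) g⁻¹(0) g(1) g⁻¹(1) ... g(n-1) g⁻¹(n-1)`. -/
def str (g : Equiv.Perm ℕ) (n : ℕ) : List ℕ :=
  (List.range n).flatMap fun i => [g i, g⁻¹ i]

/-- The set of all strings `g(0) g⁻¹(0) ... g(n) g⁻¹(n)` with `g ∈ G` and `n ∈ ℕ`. -/
def TG (G : Subgroup (Equiv.Perm ℕ)) : Set (List ℕ) := {τ | ∃ g ∈ G, ∃ n, τ = str g (n + 1)}

/-- The set of all initial segments of members of `TG G`. -/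
def treeG (G : Subgroup (Equiv.Perm ℕ)) : Set (List ℕ) := {σ | ∃ τ ∈ TG G, σ <+: τ}

/-- The number of immediate successors of `τ` in `TG G` (the members of `TG G` which extend `τ` by
two entries). -/
noncomputable def brTG (G : Subgroup (Equiv.Perm ℕ)) (τ : List ℕ) : ℕ :=
  Set.ncard {p : ℕ × ℕ | τ ++ [p.1, p.2] ∈ TG G}

/-- The number of immediate successors of `σ` in `treeG G` (the members of `treeG G` which extend `σ`
by one entry). -/
noncomputable def brTreeG (G : Subgroup (Equiv.Perm ℕ)) (σ : List ℕ) : ℕ :=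
  Set.ncard {x : ℕ | σ ++ [x] ∈ treeG G}

/-- `deg(T_G) ∈ I`, for both readings of `T_G` (the set `TG G` of strings, or its closure under initial
segments): the characteristic function and the branching function are in `I`. -/
structure DegIn (I : Set (ℕ → ℕ)) (G : Subgroup (Equiv.Perm ℕ)) : Prop where
  set : charFn (TG G) ∈ I
  branching : (fun n => brTG G (Denumerable.ofNat (List ℕ) n)) ∈ I
  tree : charFn (treeG G) ∈ I
  tree_branching : (fun n => brTreeG G (Denumerable.ofNat (List ℕ) n)) ∈ I

/-! ### The subgroup `G_I` -/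

theorem ideal_rec {I : Set (ℕ → ℕ)} (hI : IsTuringIdeal I) {f g : ℕ → ℕ}
    (hg : g ∈ I) (h : Nat.RecursiveIn {fun n => Part.some (g n)} (fun n => Part.some (f n))) :
    f ∈ I := hI.down f g hg (RecursiveIn.iff_nat.2 h)

theorem ideal_computable {I : Set (ℕ → ℕ)} (hI : IsTuringIdeal I) {f : ℕ → ℕ}
    (hf : Computable f) : f ∈ I := by
  obtain ⟨g, hg⟩ := hI.nonempty
  exact hI.down f g hg hf.partrec.recursiveIn

theorem ideal_comp {I : Set (ℕ → ℕ)} (hI : IsTuringIdeal I) {f g : ℕ → ℕ}
    (hf : f ∈ I) (hg : g ∈ I) : (fun n => f (g n)) ∈ I := by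
  refine ideal_rec hI (hI.join f g hf hg) ?_
  have h0 : Nat.RecursiveIn {fun n => Part.some (Nat.pair (f n) (g n))}
      (fun n => Part.some (Nat.pair (f n) (g n))) := Nat.RecursiveIn.oracle _ rfl
  have h1 := Nat.RecursiveIn.comp Nat.RecursiveIn.left h0
  have h2 := Nat.RecursiveIn.comp Nat.RecursiveIn.right h0
  refine (Nat.RecursiveIn.comp h1 h2).of_eq fun n => ?_
  simp

theorem ideal_inv {I : Set (ℕ → ℕ)} (hI : IsTuringIdeal I) {g : Equiv.Perm ℕ}
    (hg : (g : ℕ → ℕ) ∈ I) : ((g⁻¹ : Equiv.Perm ℕ) : ℕ → ℕ) ∈ I := by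
  refine ideal_rec hI hg ?_
  have h0 : Nat.RecursiveIn {fun n => Part.some (g n)} (fun n => Part.some (g n)) :=
    Nat.RecursiveIn.oracle _ rfl
  -- d ⟨a, n⟩ = 0 iff g n = a
  have h1 : Nat.RecursiveIn {fun n => Part.some (g n)}
      (fun p => Part.some (Nat.pair p.unpair.1 (g p.unpair.2))) := by
    refine (Nat.RecursiveIn.pair Nat.RecursiveIn.left
      (Nat.RecursiveIn.comp h0 Nat.RecursiveIn.right)).of_eq fun p => ?_
    simp [Seq.seq]
  have h2 : Nat.RecursiveIn {fun n => Part.some (g n)}
      (fun q : ℕ => Part.some ((q.unpair.1 - q.unpair.2) + (q.unpair.2 - q.unpair.1))) := by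
    have : Computable (fun q : ℕ => (q.unpair.1 - q.unpair.2) + (q.unpair.2 - q.unpair.1)) :=
      Q201.Comp.add2 (Q201.Comp.sub2 (Computable.fst.comp Computable.unpair)
        (Computable.snd.comp Computable.unpair)) (Q201.Comp.sub2 (Computable.snd.comp Computable.unpair)
        (Computable.fst.comp Computable.unpair))
    exact Nat.Partrec.recursiveIn (Partrec.nat_iff.1 this.partrec)
  have h3 := Nat.RecursiveIn.rfind (Nat.RecursiveIn.comp h2 h1)
  refine h3.of_eq fun a => ?_
  refine Part.eq_some_iff.2 (Nat.mem_rfind.2 ⟨?_, ?_⟩)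
  · simp
  · intro m hm
    have : g m ≠ a := by
      rintro rfl
      simp at hm
    simp only [Nat.unpair_pair, Part.bind_eq_bind, Part.bind_some, Part.map_eq_map, Part.map_some, Part.mem_some_iff]
    symm
    simp only [decide_eq_false_iff_not]
    omega

/-- The subgroup `G_I = {g ∈ G : deg g ∈ I}`. -/
def GI (I : Set (ℕ → ℕ)) (hI : IsTuringIdeal I) (G : Subgroup (Equiv.Perm ℕ)) :
    Subgroup (Equiv.Perm ℕ) where
  carrier := {g | g ∈ G ∧ (g : ℕ → ℕ) ∈ I}
  mul_mem' := fun {a b} ha hb => ⟨G.mul_mem ha.1 hb.1, by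
    have h := ideal_comp hI (f := a) (g := b) ha.2 hb.2
    exact h⟩
  one_mem' := ⟨G.one_mem, ideal_computable hI Computable.id⟩
  inv_mem' := fun {a} ha => ⟨G.inv_mem ha.1, ideal_inv hI ha.2⟩

theorem GI_le (I : Set (ℕ → ℕ)) (hI : IsTuringIdeal I) (G : Subgroup (Equiv.Perm ℕ)) :
    GI I hI G ≤ G := fun _ h => h.1

/-- `A ⪯_{∃∀} B` for a subgroup `A` of `B`. -/
def ElemExistsForall (A B : Subgroup (Equiv.Perm ℕ)) (h : A ≤ B) : Prop :=
  ∀ (n : ℕ) (φ : grp.Formula (Fin n)), IsExistsForall φ → ∀ a : Fin n → A,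
    (φ.Realize a ↔ φ.Realize fun i => Subgroup.inclusion h (a i))

/-! ### The construction -/

section Construction

open Pool.Agent.Q201.QG

/-- the coordinate which controls the point `i` -/
def own (f : ℕ → ℕ) (i : ℕ) : ℕ := if i % 65 < 5 then i / 65 else f (i / 65)

/-- `v` acting on the point `i` -/
def mv (v : Q) (i : ℕ) : ℕ := 65 * (i / 65) + act v (i % 65)

theorem act_mod (v : Q) (i : ℕ) : act v (i % 65) < 65 := act_lt65 v (Nat.mod_lt _ (by norm_num))

theorem mv_div (v : Q) (i : ℕ) : mv v i / 65 = i / 65 := by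
  have := act_mod v i
  unfold mv; omega

theorem mv_mod (v : Q) (i : ℕ) : mv v i % 65 = act v (i % 65) := by
  have := act_mod v i
  unfold mv; omega

theorem mv_mul (u v : Q) (i : ℕ) : mv (u * v) i = mv u (mv v i) := by
  unfold mv
  have h1 := mv_div v i
  have h2 := mv_mod v i
  unfold mv at h1 h2
  rw [h1, h2, act_mul]

theorem mv_one (i : ℕ) : mv 1 i = i := by
  unfold mv; rw [act_one]; omega

theorem own_mv (f : ℕ → ℕ) (v : Q) (i : ℕ) : own f (mv v i) = own f i := by
  unfold own
  rw [mv_div, mv_mod]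
  by_cases h : i % 65 < 5
  · rw [if_pos h, if_pos (act_lt5 v h)]
  · rw [if_neg h, if_neg (by have := act_ge5 v (r := i % 65) (by omega); omega)]

theorem mv_lt (v : Q) (i : ℕ) : mv v i < i + 65 := by
  have := act_mod v i
  unfold mv; omega

/-- The homomorphism whose range is `G`. -/
def Phi (f : ℕ → ℕ) : (ℕ → Q) →* Equiv.Perm ℕ where
  toFun h :=
    { toFun := fun i => mv (h (own f i)) i
      invFun := fun i => mv (h (own f i))⁻¹ i
      left_inv := fun i => by
        simp only [own_mv]
        rw [← mv_mul, inv_mul_cancel, mv_one]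
      right_inv := fun i => by
        simp only [own_mv]
        rw [← mv_mul, mul_inv_cancel, mv_one] }
  map_one' := by
    ext i
    exact mv_one i
  map_mul' := fun g h => by
    ext i
    change mv (g (own f i) * h (own f i)) i = mv (g (own f (mv (h (own f i)) i))) (mv (h (own f i)) i)
    rw [own_mv, mv_mul]

theorem Phi_apply (f : ℕ → ℕ) (h : ℕ → Q) (i : ℕ) : Phi f h i = mv (h (own f i)) i := rfl

theorem Phi_inv_apply (f : ℕ → ℕ) (h : ℕ → Q) (i : ℕ) : (Phi f h)⁻¹ i = mv (h (own f i))⁻¹ i := rfl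

/-- the group -/
def G (f : ℕ → ℕ) : Subgroup (Equiv.Perm ℕ) := (Phi f).range

theorem profinite (f : ℕ → ℕ) : IsProfinite (G f) where
  closed := by
    let _ : TopologicalSpace (Equiv.Perm ℕ) := permTopology
    let _ : TopologicalSpace Q := ⊥
    have : DiscreteTopology Q := ⟨rfl⟩
    have : T2Space (Equiv.Perm ℕ) := by
      refine T2Space.of_injective_continuous (f := fun g : Equiv.Perm ℕ => (g : ℕ → ℕ))
        DFunLike.coe_injective continuous_induced_dom
    have hc : Continuous (Phi f) := by
      refine continuous_induced_rng.2 (continuous_pi fun i => ?_)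
      change Continuous fun h : ℕ → Q => mv (h (own f i)) i
      exact (continuous_of_discreteTopology (f := fun v : Q => mv v i)).comp (continuous_apply _)
    have : (G f : Set (Equiv.Perm ℕ)) = Set.range (Phi f) := rfl
    rw [this]
    exact (isCompact_range hc).isClosed
  orbits := fun i => by
    refine (Set.finite_lt_nat (i + 65)).subset ?_
    rintro j ⟨g, ⟨h, rfl⟩, rfl⟩
    exact mv_lt _ _

/-! #### Computability of the tree -/

theorem length_str (g : Equiv.Perm ℕ) (n : ℕ) : (str g n).length = 2 * n := by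
  induction n with
  | zero => rfl
  | succ n ih =>
    have : str g (n + 1) = str g n ++ [g n, g⁻¹ n] := by simp [str, List.range_succ]
    rw [this, List.length_append, ih]; simp; omega

theorem str_succ (g : Equiv.Perm ℕ) (n : ℕ) : str g (n + 1) = str g n ++ [g n, g⁻¹ n] := by
  simp [str, List.range_succ]

theorem str_getD (g : Equiv.Perm ℕ) (n i : ℕ) (h : i < n) :
    (str g n).getD (2 * i) 0 = g i ∧ (str g n).getD (2 * i + 1) 0 = g⁻¹ i := by
  induction n with
  | zero => omega
  | succ n ih =>
    rw [str_succ]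
    rcases Nat.lt_or_ge i n with hi | hi
    · rw [List.getD_append _ _ _ _ (by rw [length_str]; omega),
        List.getD_append _ _ _ _ (by rw [length_str]; omega)]
      exact ih hi
    · obtain rfl : i = n := by omega
      rw [List.getD_append_right _ _ _ _ (by rw [length_str]),
        List.getD_append_right _ _ _ _ (by rw [length_str]; omega), length_str]
      simp

theorem eq_str (g : Equiv.Perm ℕ) (n : ℕ) (τ : List ℕ) (hl : τ.length = 2 * n)
    (h : ∀ i < n, τ.getD (2 * i) 0 = g i ∧ τ.getD (2 * i + 1) 0 = g⁻¹ i) : τ = str g n := by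
  refine List.ext_getElem (by rw [hl, length_str]) fun j h1 h2 => ?_
  rw [← List.getD_eq_getElem _ 0 h1, ← List.getD_eq_getElem _ 0 h2]
  rw [hl] at h1
  rcases Nat.mod_two_eq_zero_or_one j with hj | hj
  · obtain ⟨i, rfl⟩ : ∃ i, j = 2 * i := ⟨j / 2, by omega⟩
    rw [(h i (by omega)).1, (str_getD g n i (by omega)).1]
  · obtain ⟨i, rfl⟩ : ∃ i, j = 2 * i + 1 := ⟨j / 2, by omega⟩
    rw [(h i (by omega)).2, (str_getD g n i (by omega)).2]

theorem mem_TG_iff (f : ℕ → ℕ) (τ : List ℕ) : τ ∈ TG (G f) ↔
    (τ.length % 2 = 0 ∧ 0 < τ.length ∧ ∀ i₀ < τ.length / 2, ∃ c < 60, ∀ i < τ.length / 2,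
      own f i = own f i₀ → τ.getD (2 * i) 0 = mv (dec c) i ∧
        τ.getD (2 * i + 1) 0 = mv (dec c)⁻¹ i) := by
  constructor
  · rintro ⟨g, ⟨h, rfl⟩, n, rfl⟩
    rw [length_str]
    refine ⟨by omega, by omega, fun i₀ hi₀ => ⟨code (h (own f i₀)), code_lt _, fun i hi hii => ?_⟩⟩
    rw [dec_code, ← hii]
    exact str_getD _ _ _ (by omega)
  · rintro ⟨h1, h2, h3⟩
    classical
    choose! c hc hc' using h3
    let h : ℕ → Q := fun k => if hk : ∃ i₀, i₀ < τ.length / 2 ∧ own f i₀ = k
      then dec (c hk.choose) else 1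
    refine ⟨Phi f h, ⟨h, rfl⟩, τ.length / 2 - 1, ?_⟩
    have hlen : τ.length / 2 - 1 + 1 = τ.length / 2 := by omega
    rw [hlen]
    refine eq_str _ _ _ (by omega) fun i hi => ?_
    have hk : ∃ i₀, i₀ < τ.length / 2 ∧ own f i₀ = own f i := ⟨i, hi, rfl⟩
    have hh : h (own f i) = dec (c hk.choose) := by simp only [h]; rw [dif_pos hk]
    rw [Phi_apply, Phi_inv_apply, hh]
    exact hc' _ hk.choose_spec.1 i hi hk.choose_spec.2.symm

/-- a function given by a finite table is computable -/
theorem table (F : ℕ → ℕ → ℕ) (A B : ℕ) :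
    Computable (fun p : ℕ × ℕ => if p.1 < A ∧ p.2 < B then F p.1 p.2 else 0) := by
  let tab : List ℕ := (List.range (A * B)).map fun m => F (m / B) (m % B)
  have h1 : Computable (fun p : ℕ × ℕ => if decide (p.1 < A) && decide (p.2 < B)
      then tab.getD (p.1 * B + p.2) 0 else 0) := by
    refine Q201.Comp.ite (Q201.Comp.and2 (Q201.Comp.lt2 Computable.fst (Computable.const A))
      (Q201.Comp.lt2 Computable.snd (Computable.const B))) ?_ (Computable.const 0)
    exact (Primrec.list_getD 0).to_comp.comp (Computable.const tab)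
      (Q201.Comp.add2 (Q201.Comp.mul2 Computable.fst (Computable.const B)) Computable.snd)
  refine h1.of_eq fun p => ?_
  by_cases h : p.1 < A ∧ p.2 < B
  · rw [if_pos h, if_pos (by simpa using h)]
    have hlt : p.1 * B + p.2 < A * B := by
      calc p.1 * B + p.2 < p.1 * B + B := by omega
        _ = (p.1 + 1) * B := by ring
        _ ≤ A * B := Nat.mul_le_mul_right _ h.1
    rw [List.getD_eq_getElem _ _ (by simp [tab]; exact hlt)]
    simp only [tab, List.getElem_map, List.getElem_range]
    have hB : 0 < B := by omega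
    rw [Nat.mul_comm, Nat.mul_add_div hB, Nat.mul_add_mod, Nat.div_eq_of_lt h.2, Nat.mod_eq_of_lt h.2,
      Nat.add_zero]
  · rw [if_neg h, if_neg (by simpa using h)]

/-- table version of the action -/
def mvT (F : ℕ → ℕ → ℕ) (c i : ℕ) : ℕ :=
  65 * (i / 65) + if c < 60 ∧ i % 65 < 65 then F c (i % 65) else 0

theorem computable_mvT (F : ℕ → ℕ → ℕ) : Computable₂ (mvT F) := by
  have h1 : Computable (fun p : ℕ × ℕ => p.2 / 65) :=
    Q201.Comp.div2 Computable.snd (Computable.const 65)
  have h2 : Computable (fun p : ℕ × ℕ => p.2 % 65) :=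
    Q201.Comp.mod2 Computable.snd (Computable.const 65)
  exact Q201.Comp.add2 (Q201.Comp.mul2 (Computable.const 65) h1)
    ((table F 60 65).comp (Computable.fst.pair h2))

theorem mvT_eq {c : ℕ} (hc : c < 60) (i : ℕ) :
    mvT (fun c r => act (dec c) r) c i = mv (dec c) i := by
  unfold mvT mv
  rw [if_pos ⟨hc, Nat.mod_lt _ (by norm_num)⟩]

theorem mvT_eq' {c : ℕ} (hc : c < 60) (i : ℕ) :
    mvT (fun c r => act (dec c)⁻¹ r) c i = mv (dec c)⁻¹ i := by
  unfold mvT mv
  rw [if_pos ⟨hc, Nat.mod_lt _ (by norm_num)⟩]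

/-- bounded existential quantifier -/
def bexB (n : ℕ) (P : ℕ → Bool) : Bool := decide (∃ c < n, P c = true)

/-- bounded universal quantifier -/
def ballB (n : ℕ) (P : ℕ → Bool) : Bool := decide (∀ c < n, P c = true)

theorem bexB_iff {n : ℕ} {P : ℕ → Bool} : bexB n P = true ↔ ∃ c < n, P c = true := by
  simp [bexB]

theorem ballB_iff {n : ℕ} {P : ℕ → Bool} : ballB n P = true ↔ ∀ c < n, P c = true := by
  simp [ballB]

/-- the test for one index -/
def inner (f : ℕ → ℕ) (x : ((List ℕ × ℕ) × ℕ) × ℕ) : Bool :=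
  !decide (own f x.2 = own f x.1.1.2) ||
    (decide (x.1.1.1.getD (2 * x.2) 0 = mvT (fun c r => act (dec c) r) x.1.2 x.2) &&
      decide (x.1.1.1.getD (2 * x.2 + 1) 0 = mvT (fun c r => act (dec c)⁻¹ r) x.1.2 x.2))

/-- decision procedure for `TG` -/
def TGb (f : ℕ → ℕ) (τ : List ℕ) : Bool :=
  decide (τ.length % 2 = 0) && (decide (0 < τ.length) &&
    ballB (τ.length / 2) fun i₀ => bexB 60 fun c => ballB (τ.length / 2) fun i =>
      inner f (((τ, i₀), c), i))

theorem TGb_iff (f : ℕ → ℕ) (τ : List ℕ) : TGb f τ = true ↔ τ ∈ TG (G f) := by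
  rw [mem_TG_iff]
  simp only [TGb, inner, Bool.and_eq_true, decide_eq_true_eq, Bool.or_eq_true, Bool.not_eq_true',
    decide_eq_false_iff_not, bexB_iff, ballB_iff]
  refine and_congr Iff.rfl (and_congr Iff.rfl ?_)
  refine forall_congr' fun i₀ => forall_congr' fun _ => exists_congr fun c => ?_
  refine and_congr_right fun hc => forall_congr' fun i => forall_congr' fun _ => ?_
  rw [mvT_eq hc, mvT_eq' hc]
  tauto

theorem computable_own {f : ℕ → ℕ} (hf : Computable f) : Computable (own f) := by
  have h1 : Computable (fun i : ℕ => i / 65) :=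
    Q201.Comp.div2 Computable.id (Computable.const 65)
  have h2 : Computable (fun i : ℕ => i % 65) :=
    Q201.Comp.mod2 Computable.id (Computable.const 65)
  refine (Q201.Comp.ite (Q201.Comp.lt2 h2 (Computable.const 5)) h1 (hf.comp h1)).of_eq fun i => ?_
  unfold own
  by_cases h : i % 65 < 5 <;> simp [h]

theorem computable_getD_a : Computable (fun x : ((List ℕ × ℕ) × ℕ) × ℕ => x.1.1.1.getD (2 * x.2) 0) := by
  have hi : Computable (fun x : ((List ℕ × ℕ) × ℕ) × ℕ => x.2) := Computable.snd
  have hτ : Computable (fun x : ((List ℕ × ℕ) × ℕ) × ℕ => x.1.1.1) :=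
    Computable.fst.comp (Computable.fst.comp Computable.fst)
  exact (Primrec.list_getD 0).to_comp.comp hτ (Q201.Comp.mul2 (Computable.const 2) hi)

theorem computable_getD_b :
    Computable (fun x : ((List ℕ × ℕ) × ℕ) × ℕ => x.1.1.1.getD (2 * x.2 + 1) 0) := by
  have hi : Computable (fun x : ((List ℕ × ℕ) × ℕ) × ℕ => x.2) := Computable.snd
  have hτ : Computable (fun x : ((List ℕ × ℕ) × ℕ) × ℕ => x.1.1.1) :=
    Computable.fst.comp (Computable.fst.comp Computable.fst)
  exact (Primrec.list_getD 0).to_comp.comp hτ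
      (Q201.Comp.succ1 (Q201.Comp.mul2 (Computable.const 2) hi))

theorem computable_mvT' (F : ℕ → ℕ → ℕ) :
    Computable (fun x : ((List ℕ × ℕ) × ℕ) × ℕ => mvT F x.1.2 x.2) := by
  have hi : Computable (fun x : ((List ℕ × ℕ) × ℕ) × ℕ => x.2) := Computable.snd
  have hc : Computable (fun x : ((List ℕ × ℕ) × ℕ) × ℕ => x.1.2) :=
    Computable.snd.comp Computable.fst
  exact (computable_mvT F).comp hc hi

theorem computable_inner {f : ℕ → ℕ} (hf : Computable f) : Computable (inner f) := by
  have hown := computable_own hf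
  have hi : Computable (fun x : ((List ℕ × ℕ) × ℕ) × ℕ => x.2) := Computable.snd
  have hi0 : Computable (fun x : ((List ℕ × ℕ) × ℕ) × ℕ => x.1.1.2) :=
    Computable.snd.comp (Computable.fst.comp Computable.fst)
  have k1 : Computable (fun x : ((List ℕ × ℕ) × ℕ) × ℕ => own f x.2) := hown.comp hi
  have k2 : Computable (fun x : ((List ℕ × ℕ) × ℕ) × ℕ => own f x.1.1.2) := hown.comp hi0
  have k3 := Q201.Comp.not1 (Q201.Comp.eq2 k1 k2)
  have k4 := Q201.Comp.eq2 computable_getD_a (computable_mvT' fun c r => act (dec c) r)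
  have k5 := Q201.Comp.eq2 computable_getD_b (computable_mvT' fun c r => act (dec c)⁻¹ r)
  exact (Q201.Comp.or2 k3 (Q201.Comp.and2 k4 k5)).of_eq fun x => rfl

theorem computable_ballB {α : Type*} [Primcodable α] {P : α → ℕ → Bool} (hP : Computable₂ P)
    {n : α → ℕ} (hn : Computable n) : Computable fun a => ballB (n a) (P a) :=
  Q201.Comp.ball hP hn

theorem computable_bexB {α : Type*} [Primcodable α] {P : α → ℕ → Bool} (hP : Computable₂ P)
    {n : α → ℕ} (hn : Computable n) : Computable fun a => bexB (n a) (P a) :=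
  Q201.Comp.bex hP hn

theorem computable_TGb {f : ℕ → ℕ} (hf : Computable f) : Computable (TGb f) := by
  have hlen : Computable (fun τ : List ℕ => τ.length) := Computable.list_length
  have hhalf : Computable (fun τ : List ℕ => τ.length / 2) :=
    Q201.Comp.div2 hlen (Computable.const 2)
  have h1 : Computable fun q : (List ℕ × ℕ) × ℕ =>
      ballB (q.1.1.length / 2) fun i => inner f (q, i) :=
    computable_ballB (P := fun (q : (List ℕ × ℕ) × ℕ) i => inner f (q, i)) (computable_inner hf)
      (hhalf.comp (Computable.fst.comp Computable.fst))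
  have h2 : Computable fun p : List ℕ × ℕ => bexB 60 fun c =>
      ballB (p.1.length / 2) fun i => inner f ((p, c), i) :=
    computable_bexB (P := fun (p : List ℕ × ℕ) c =>
      ballB (p.1.length / 2) fun i => inner f ((p, c), i)) h1 (Computable.const 60)
  have h3 : Computable fun τ : List ℕ => ballB (τ.length / 2) fun i₀ => bexB 60 fun c =>
      ballB (τ.length / 2) fun i => inner f (((τ, i₀), c), i) :=
    computable_ballB (P := fun (τ : List ℕ) i₀ => bexB 60 fun c =>
      ballB (τ.length / 2) fun i => inner f (((τ, i₀), c), i)) h2 hhalf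
  exact Q201.Comp.and2 (Q201.Comp.eq2 (Q201.Comp.mod2 hlen (Computable.const 2))
    (Computable.const 0)) (Q201.Comp.and2 (Q201.Comp.lt2 (Computable.const 0) hlen) h3)

/-- the characteristic function of a decidable set of strings -/
theorem computable_charFn {T : Set (List ℕ)} {b : List ℕ → Bool} (hb : Computable b)
    (h : ∀ τ, b τ = true ↔ τ ∈ T) : Computable (charFn T) := by
  have h1 : Computable (fun n : ℕ => (b (Denumerable.ofNat (List ℕ) n)).toNat) :=
    Q201.Comp.toNat.comp (hb.comp (Computable.ofNat (List ℕ)))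
  refine h1.of_eq fun n => ?_
  unfold charFn
  have h2 : (∃ τ ∈ T, Encodable.encode τ = n) ↔ b (Denumerable.ofNat (List ℕ) n) = true := by
    rw [h]
    constructor
    · rintro ⟨τ, hτ, rfl⟩
      rw [Denumerable.ofNat_encode]; exact hτ
    · intro h3
      exact ⟨_, h3, Denumerable.encode_ofNat n⟩
  by_cases h3 : ∃ τ ∈ T, Encodable.encode τ = n
  · rw [if_pos h3, h2.1 h3]; rfl
  · rw [if_neg h3]
    have : b (Denumerable.ofNat (List ℕ) n) = false := by
      simpa using mt h2.2 h3
    rw [this]; rfl

theorem append_mem_TG {f : ℕ → ℕ} {τ : List ℕ} {x y : ℕ} (h : τ ++ [x, y] ∈ TG (G f)) :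
    x < τ.length + 65 ∧ y < τ.length + 65 := by
  obtain ⟨g, ⟨h', rfl⟩, n, hn⟩ := h
  rw [str_succ] at hn
  obtain ⟨h1, h2⟩ := List.append_inj' hn rfl
  have h3 : τ.length = 2 * n := by rw [h1, length_str]
  simp only [List.cons.injEq, and_true] at h2
  rw [h3, h2.1, h2.2, Phi_apply, Phi_inv_apply]
  have h4 := mv_lt (h' (own f n)) n
  have h5 := mv_lt (h' (own f n))⁻¹ n
  omega

theorem ncard_lt (P : ℕ → Bool) (B : ℕ) (h : ∀ x, P x = true → x < B) :
    Set.ncard {x | P x = true} = ∑ x ∈ Finset.range B, (P x).toNat := by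
  have h1 : {x | P x = true} = ((Finset.range B).filter fun x => P x = true : Finset ℕ) := by
    ext x
    simp only [Set.mem_ofPred_eq, Finset.coe_filter, Finset.mem_range]
    exact ⟨fun hx => ⟨h x hx, hx⟩, fun hx => hx.2⟩
  rw [h1, Set.ncard_coe_finset, Finset.card_filter]
  refine Finset.sum_congr rfl fun x _ => ?_
  cases P x <;> simp

theorem ncard_lt2 (P : ℕ → ℕ → Bool) (B : ℕ) (h : ∀ x y, P x y = true → x < B ∧ y < B) :
    Set.ncard {p : ℕ × ℕ | P p.1 p.2 = true} =
      ∑ x ∈ Finset.range B, ∑ y ∈ Finset.range B, (P x y).toNat := by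
  have h1 : {p : ℕ × ℕ | P p.1 p.2 = true} =
      ((Finset.range B ×ˢ Finset.range B).filter fun p => P p.1 p.2 = true : Finset (ℕ × ℕ)) := by
    ext p
    simp only [Set.mem_ofPred_eq, Finset.coe_filter, Finset.mem_product, Finset.mem_range]
    exact ⟨fun hx => ⟨h _ _ hx, hx⟩, fun hx => hx.2⟩
  rw [h1, Set.ncard_coe_finset, Finset.card_filter, Finset.sum_product]
  refine Finset.sum_congr rfl fun x _ => Finset.sum_congr rfl fun y _ => ?_
  cases P x y <;> simp

theorem computable_brTG {f : ℕ → ℕ} (hf : Computable f) : Computable (brTG (G f)) := by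
  have hlen : Computable (fun τ : List ℕ => τ.length + 65) :=
    Q201.Comp.add2 Computable.list_length (Computable.const 65)
  have h0 : Computable fun q : (List ℕ × ℕ) × ℕ => (TGb f (q.1.1 ++ [q.1.2, q.2])).toNat := by
    refine Q201.Comp.toNat.comp ((computable_TGb hf).comp ?_)
    refine Primrec.to_comp (Primrec.list_append.comp (Primrec.fst.comp Primrec.fst) ?_)
    exact Primrec.list_cons.comp (Primrec.snd.comp Primrec.fst)
      (Primrec.list_cons.comp Primrec.snd (Primrec.const []))
  have h1 : Computable fun p : List ℕ × ℕ =>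
      ∑ y ∈ Finset.range (p.1.length + 65), (TGb f (p.1 ++ [p.2, y])).toNat :=
    Q201.Comp.sum (F := fun (p : List ℕ × ℕ) y => (TGb f (p.1 ++ [p.2, y])).toNat) h0
      (hlen.comp Computable.fst)
  have h2 : Computable fun τ : List ℕ => ∑ x ∈ Finset.range (τ.length + 65),
      ∑ y ∈ Finset.range (τ.length + 65), (TGb f (τ ++ [x, y])).toNat :=
    Q201.Comp.sum (F := fun (τ : List ℕ) x =>
      ∑ y ∈ Finset.range (τ.length + 65), (TGb f (τ ++ [x, y])).toNat) h1 hlen
  refine h2.of_eq fun τ => ?_
  unfold brTG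
  rw [← ncard_lt2 (fun x y => TGb f (τ ++ [x, y])) (τ.length + 65)
    (fun x y h => append_mem_TG ((TGb_iff f _).1 h))]
  simp only [TGb_iff]

/-- decision procedure for `treeG` -/
def treeb (f : ℕ → ℕ) (σ : List ℕ) : Bool :=
  TGb f σ || (decide (σ.length = 0) || bexB (σ.length + 65) fun y => TGb f (σ ++ [y]))

theorem treeb_iff (f : ℕ → ℕ) (σ : List ℕ) : treeb f σ = true ↔ σ ∈ treeG (G f) := by
  simp only [treeb, Bool.or_eq_true, decide_eq_true_eq, bexB_iff, TGb_iff]
  constructor
  · rintro (h | h | ⟨y, -, h⟩)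
    · exact ⟨σ, h, List.prefix_rfl⟩
    · rw [List.length_eq_zero_iff] at h
      subst h
      exact ⟨str 1 1, ⟨1, (G f).one_mem, 0, rfl⟩, List.nil_prefix⟩
    · exact ⟨_, h, List.prefix_append _ _⟩
  · rintro ⟨τ, ⟨g, hg, n, rfl⟩, hσ⟩
    have key : ∀ n, ∀ σ, σ <+: str g n → σ ∈ TG (G f) ∨ σ.length = 0 ∨
        ∃ y < σ.length + 65, σ ++ [y] ∈ TG (G f) := by
      intro n
      induction n with
      | zero =>
        intro σ hσ
        have : σ = [] := by simpa [str] using hσ
        right; left; rw [this]; rfl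
      | succ n ih =>
        intro σ hσ
        by_cases h1 : σ.length ≤ 2 * n
        · refine ih σ (List.prefix_of_prefix_length_le hσ ?_ (by rw [length_str]; exact h1))
          rw [str_succ]; exact List.prefix_append _ _
        · have h2 := hσ.length_le
          rw [length_str] at h2
          by_cases h3 : σ.length = 2 * (n + 1)
          · left
            have : σ = str g (n + 1) := hσ.eq_of_length (by rw [length_str, h3])
            rw [this]
            exact ⟨g, hg, n, rfl⟩
          · right; right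
            have h4 : σ.length = 2 * n + 1 := by omega
            obtain ⟨ρ, hρ⟩ := hσ
            have h5 : ρ.length = 1 := by
              have := congrArg List.length hρ
              rw [List.length_append, length_str] at this
              omega
            obtain ⟨y, rfl⟩ := List.length_eq_one_iff.1 h5
            refine ⟨y, ?_, by rw [hρ]; exact ⟨g, hg, n, rfl⟩⟩
            have h6 : str g (n + 1) = str g n ++ [g n, g⁻¹ n] := str_succ g n
            have h7 : σ ++ [y] = (str g n ++ [g n]) ++ [g⁻¹ n] := by rw [hρ, h6]; simp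
            obtain ⟨-, h8⟩ := List.append_inj' h7 rfl
            simp only [List.cons.injEq, and_true] at h8
            obtain ⟨h', rfl⟩ := hg
            rw [h8, Phi_inv_apply]
            have := mv_lt (h' (own f n))⁻¹ n
            omega
    exact key _ _ hσ

theorem computable_treeb {f : ℕ → ℕ} (hf : Computable f) : Computable (treeb f) := by
  have hlen : Computable (fun τ : List ℕ => τ.length + 65) :=
    Q201.Comp.add2 Computable.list_length (Computable.const 65)
  have h0 : Computable fun q : List ℕ × ℕ => TGb f (q.1 ++ [q.2]) := by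
    refine (computable_TGb hf).comp ?_
    exact Primrec.to_comp (Primrec.list_append.comp Primrec.fst
      (Primrec.list_cons.comp Primrec.snd (Primrec.const [])))
  exact Q201.Comp.or2 (computable_TGb hf) (Q201.Comp.or2
    (Q201.Comp.eq2 Computable.list_length (Computable.const 0))
    (computable_bexB (P := fun (σ : List ℕ) y => TGb f (σ ++ [y])) h0 hlen))

theorem append_mem_treeG {f : ℕ → ℕ} {σ : List ℕ} {x : ℕ} (h : σ ++ [x] ∈ treeG (G f)) :
    x < σ.length + 65 := by
  obtain ⟨τ, ⟨g, ⟨h', rfl⟩, n, rfl⟩, hσ⟩ := h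
  have hl := hσ.length_le
  rw [List.length_append, length_str, List.length_singleton] at hl
  have h1 : (str (Phi f h') (n + 1)).getD σ.length 0 = x := by
    obtain ⟨ρ, hρ⟩ := hσ
    rw [← hρ, List.getD_append _ _ _ _ (by simp), List.getD_append_right _ _ _ _ le_rfl]
    simp
  rcases Nat.mod_two_eq_zero_or_one σ.length with hj | hj
  · obtain ⟨i, hi⟩ : ∃ i, σ.length = 2 * i := ⟨σ.length / 2, by omega⟩
    rw [hi, (str_getD _ _ i (by omega)).1, Phi_apply] at h1
    have := mv_lt (h' (own f i)) i
    omega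
  · obtain ⟨i, hi⟩ : ∃ i, σ.length = 2 * i + 1 := ⟨σ.length / 2, by omega⟩
    rw [hi, (str_getD _ _ i (by omega)).2, Phi_inv_apply] at h1
    have := mv_lt (h' (own f i))⁻¹ i
    omega

theorem computable_brTreeG {f : ℕ → ℕ} (hf : Computable f) : Computable (brTreeG (G f)) := by
  have hlen : Computable (fun τ : List ℕ => τ.length + 65) :=
    Q201.Comp.add2 Computable.list_length (Computable.const 65)
  have h0 : Computable fun q : List ℕ × ℕ => (treeb f (q.1 ++ [q.2])).toNat := by
    refine Q201.Comp.toNat.comp ((computable_treeb hf).comp ?_)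
    exact Primrec.to_comp (Primrec.list_append.comp Primrec.fst
      (Primrec.list_cons.comp Primrec.snd (Primrec.const [])))
  have h2 : Computable fun τ : List ℕ => ∑ x ∈ Finset.range (τ.length + 65),
      (treeb f (τ ++ [x])).toNat :=
    Q201.Comp.sum (F := fun (τ : List ℕ) x => (treeb f (τ ++ [x])).toNat) h0 hlen
  refine h2.of_eq fun τ => ?_
  unfold brTreeG
  rw [← ncard_lt (fun x => treeb f (τ ++ [x])) (τ.length + 65)
    (fun x h => append_mem_treeG ((treeb_iff f _).1 h))]
  simp only [treeb_iff]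

theorem degIn {I : Set (ℕ → ℕ)} (hI : IsTuringIdeal I) {f : ℕ → ℕ} (hf : Computable f) :
    DegIn I (G f) where
  set := ideal_computable hI (computable_charFn (computable_TGb hf) (TGb_iff f))
  branching := ideal_computable hI ((computable_brTG hf).comp (Computable.ofNat (List ℕ)))
  tree := ideal_computable hI (computable_charFn (computable_treeb hf) (treeb_iff f))
  tree_branching := ideal_computable hI ((computable_brTreeG hf).comp (Computable.ofNat (List ℕ)))

/-! #### The sentence -/

/-- multiplication of terms -/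
def mulT {α : Type} {n : ℕ} (s t : grp.Term (α ⊕ Fin n)) : grp.Term (α ⊕ Fin n) :=
  Functions.apply₂ GFunc.mul s t

/-- inverse of a term -/
def invT {α : Type} {n : ℕ} (s : grp.Term (α ⊕ Fin n)) : grp.Term (α ⊕ Fin n) :=
  Functions.apply₁ GFunc.inv s

/-- the unit -/
def oneT {α : Type} {n : ℕ} : grp.Term (α ⊕ Fin n) := Constants.term (L := grp) GFunc.one

/-- `(y² = 1 → xy = yx) ∧ (y³ = 1 → x y x⁻¹ y = 1)` with `x = &0`, `y = &1`. -/
def psi (α : Type) : grp.BoundedFormula α 2 :=
  ((Term.bdEqual (mulT (&1) (&1)) oneT) ⟹ (Term.bdEqual (mulT (&0) (&1)) (mulT (&1) (&0)))) ⊓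
  ((Term.bdEqual (mulT (mulT (&1) (&1)) (&1)) oneT) ⟹
    (Term.bdEqual (mulT (mulT (mulT (&0) (&1)) (invT (&0))) (&1)) oneT))

theorem psi_isQF (α : Type) : (psi α).IsQF := by
  unfold psi
  refine BoundedFormula.IsQF.inf ?_ ?_ <;>
    exact BoundedFormula.IsQF.imp (BoundedFormula.IsAtomic.isQF (BoundedFormula.IsAtomic.equal _ _))
      (BoundedFormula.IsAtomic.isQF (BoundedFormula.IsAtomic.equal _ _))

theorem realize_theta {A : Type} [Group A] {α : Type} (v : α → A) (xs : Fin 0 → A) :
    (psi α).all.ex.Realize v xs ↔ ∃ x : A, ∀ y : A, (y * y = 1 → x * y = y * x) ∧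
      (y * y * y = 1 → x * y * x⁻¹ * y = 1) := by
  rw [BoundedFormula.realize_ex]
  refine exists_congr fun x => ?_
  rw [BoundedFormula.realize_all]
  refine forall_congr' fun y => ?_
  unfold psi
  rw [BoundedFormula.realize_inf, BoundedFormula.realize_imp, BoundedFormula.realize_imp]
  simp only [BoundedFormula.realize_bdEqual]
  exact Iff.rfl

/-- elements of `Q` which act trivially on the part of the domain controlled by the index `k` -/
theorem Phi_eq_one_iff (f : ℕ → ℕ) (h : ℕ → Q) : Phi f h = 1 ↔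
    ∀ k, inN (h k) ∧ (k ∈ Set.range f → h k = 1) := by
  constructor
  · intro hh k
    constructor
    · rw [inN_iff]
      intro r hr
      have h1 : Phi f h (65 * k + r) = 65 * k + r := by rw [hh]; rfl
      rw [Phi_apply] at h1
      have h2 : (65 * k + r) % 65 = r := by omega
      have h3 : (65 * k + r) / 65 = k := by omega
      have h4 : own f (65 * k + r) = k := by rw [own, h2, h3, if_pos hr]
      rw [h4, mv, h2, h3] at h1
      omega
    · rintro ⟨j, rfl⟩
      rw [faithful]
      intro r hr
      by_cases hr' : r < 65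
      · have h1 : Phi f h (65 * j + r) = 65 * j + r := by rw [hh]; rfl
        rw [Phi_apply] at h1
        have h2 : (65 * j + r) % 65 = r := by omega
        have h3 : (65 * j + r) / 65 = j := by omega
        have h4 : own f (65 * j + r) = f j := by rw [own, h2, h3, if_neg (by omega)]
        rw [h4, mv, h2, h3] at h1
        omega
      · rw [act, if_neg (by omega), if_neg hr']
  · intro hh
    ext i
    rw [Phi_apply]
    change mv (h (own f i)) i = i
    by_cases h1 : i % 65 < 5
    · have h2 : own f i = i / 65 := by rw [own, if_pos h1]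
      rw [mv, h2, (inN_iff _).1 (hh (i / 65)).1 _ h1]
      omega
    · have h2 : own f i = f (i / 65) := by rw [own, if_neg h1]
      rw [h2, (hh (f (i / 65))).2 ⟨_, rfl⟩, mv_one]

open Classical in
theorem holds_in_G (f : ℕ → ℕ) : ∃ x : G f, ∀ y : G f, (y * y = 1 → x * y = y * x) ∧
      (y * y * y = 1 → x * y * x⁻¹ * y = 1) := by
  let c : ℕ → Q := fun k => if k ∈ Set.range f then xa 0 else 1
  refine ⟨⟨Phi f c, c, rfl⟩, ?_⟩
  rintro ⟨_, u, rfl⟩
  constructor
  · intro h
    have h1 : Phi f (u * u) = 1 := by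
      rw [map_mul]; exact congrArg Subtype.val h
    rw [Phi_eq_one_iff] at h1
    refine Subtype.ext ?_
    change Phi f c * Phi f u = Phi f u * Phi f c
    rw [← map_mul, ← map_mul]
    congr 1
    funext k
    simp only [Pi.mul_apply, c]
    split_ifs with hk
    · exact fact3 _ ((h1 k).2 hk)
    · rw [one_mul, mul_one]
  · intro h
    have h1 : Phi f (u * u * u) = 1 := by
      rw [map_mul, map_mul]; exact congrArg Subtype.val h
    rw [Phi_eq_one_iff] at h1
    refine Subtype.ext ?_
    change Phi f c * Phi f u * (Phi f c)⁻¹ * Phi f u = 1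
    rw [← map_inv, ← map_mul, ← map_mul, ← map_mul, Phi_eq_one_iff]
    intro k
    simp only [Pi.mul_apply, Pi.inv_apply, c]
    by_cases hk : k ∈ Set.range f
    · rw [if_pos hk, fact4 _ ((h1 k).2 hk)]
      exact ⟨fun z => D_one z, fun _ => rfl⟩
    · rw [if_neg hk, inv_one, one_mul, mul_one]
      exact ⟨fact2 _ (h1 k).1, fun h => absurd h hk⟩

/-- finitely supported elements are computable -/
theorem computable_single {f : ℕ → ℕ} (hf : Computable f) (k : ℕ) (v : Q) :
    Computable (Phi f (Pi.mulSingle k v) : ℕ → ℕ) := by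
  have hc := code_lt v
  have h1 : Computable (fun i : ℕ => if decide (own f i = k) then mvT (fun c r => act (dec c) r) (code v) i
      else i) := by
    refine Q201.Comp.ite (Q201.Comp.eq2 (computable_own hf) (Computable.const k)) ?_ Computable.id
    exact (computable_mvT (fun c r => act (dec c) r)).comp (Computable.const _) Computable.id
  refine h1.of_eq fun i => ?_
  rw [Phi_apply]
  by_cases h : own f i = k
  · rw [if_pos (by simpa using h), mvT_eq hc, dec_code, h, Pi.mulSingle_eq_same]
  · rw [if_neg (by simpa using h), Pi.mulSingle_eq_of_ne h, mv_one]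

theorem fails_in_GI {f : ℕ → ℕ} (hf : Computable f) {I : Set (ℕ → ℕ)} (hI : IsTuringIdeal I)
    {C : ℕ → Bool} (hC : ∀ k, C k = true ↔ k ∈ Set.range f) (hCI : (fun n => (C n).toNat) ∉ I) :
    ¬ ∃ x : GI I hI (G f), ∀ y : GI I hI (G f), (y * y = 1 → x * y = y * x) ∧
      (y * y * y = 1 → x * y * x⁻¹ * y = 1) := by
  rintro ⟨⟨_, ⟨⟨h, rfl⟩, hxI⟩⟩, hx⟩
  -- the finitely supported elements belong to `G_I`
  have hmem : ∀ (k : ℕ) (v : Q), Phi f (Pi.mulSingle k v) ∈ GI I hI (G f) := fun k v =>
    ⟨⟨_, rfl⟩, ideal_computable hI (computable_single hf k v)⟩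
  have key1 : ∀ k, k ∉ Set.range f → inN (h k) := by
    intro k hk
    have h1 : ∀ v : Q, inN (v * v) → inN (h k * v * (h k)⁻¹ * v⁻¹) := by
      intro v hv
      have h2 : Phi f (Pi.mulSingle k v) * Phi f (Pi.mulSingle k v) = 1 := by
        rw [← map_mul, Phi_eq_one_iff]
        intro j
        by_cases hj : j = k
        · subst hj
          rw [Pi.mul_apply, Pi.mulSingle_eq_same]
          exact ⟨hv, fun h => absurd h hk⟩
        · rw [Pi.mul_apply, Pi.mulSingle_eq_of_ne hj, mul_one]
          exact ⟨fun z => D_one z, fun _ => rfl⟩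
      have h3 := (hx ⟨_, hmem k v⟩).1 (Subtype.ext h2)
      have h4 : Phi f h * Phi f (Pi.mulSingle k v) = Phi f (Pi.mulSingle k v) * Phi f h :=
        congrArg Subtype.val h3
      have h5 : Phi f (h * Pi.mulSingle k v * h⁻¹ * (Pi.mulSingle k v)⁻¹) = 1 := by
        rw [map_mul, map_mul, map_mul, h4, map_inv, map_inv]
        group
      have h6 := ((Phi_eq_one_iff f _).1 h5 k).1
      simpa only [Pi.mul_apply, Pi.inv_apply, Pi.mulSingle_eq_same] using h6
    exact fact1 _ (h1 _ fact1'.1) (h1 _ fact1'.2)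
  have key2 : ∀ k, k ∈ Set.range f → act (h k) 0 ≠ 0 ∨ act (h k) 1 ≠ 1 := by
    intro k hk
    have h2 : Phi f (Pi.mulSingle k (a 10)) * Phi f (Pi.mulSingle k (a 10)) *
        Phi f (Pi.mulSingle k (a 10)) = 1 := by
      rw [← map_mul, ← map_mul, Phi_eq_one_iff]
      intro j
      by_cases hj : j = k
      · subst hj
        simp only [Pi.mul_apply, Pi.mulSingle_eq_same]
        rw [fact5']
        exact ⟨fun z => D_one z, fun _ => rfl⟩
      · simp only [Pi.mul_apply, Pi.mulSingle_eq_of_ne hj, mul_one]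
        exact ⟨fun z => D_one z, by simp⟩
    have h3 := (hx ⟨_, hmem k (a 10)⟩).2 (Subtype.ext h2)
    have h4 : Phi f h * Phi f (Pi.mulSingle k (a 10)) * (Phi f h)⁻¹ *
      Phi f (Pi.mulSingle k (a 10)) = 1 := congrArg Subtype.val h3
    rw [← map_inv, ← map_mul, ← map_mul, ← map_mul, Phi_eq_one_iff] at h4
    have h6 := (h4 k).2 hk
    simp only [Pi.mul_apply, Pi.inv_apply, Pi.mulSingle_eq_same] at h6
    exact fact5 _ h6
  -- so the witness computes `C`
  refine hCI (ideal_rec hI hxI ?_)
  have h0 : Nat.RecursiveIn {fun n => Part.some (Phi f h n)} (fun n => Part.some (Phi f h n)) :=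
    Nat.RecursiveIn.oracle _ rfl
  have tot : ∀ e : ℕ → ℕ, Computable e → Nat.RecursiveIn {fun n => Part.some (Phi f h n)}
      (fun n => Part.some (e n)) := fun e he =>
    Nat.Partrec.recursiveIn (Partrec.nat_iff.1 he.partrec)
  have e1 := tot (fun k => 65 * k) (Q201.Comp.mul2 (Computable.const 65) Computable.id)
  have e2 := tot (fun k => 65 * k + 1)
    (Q201.Comp.succ1 (Q201.Comp.mul2 (Computable.const 65) Computable.id))
  have e3 := tot id Computable.id
  have e4 := tot (fun p => if (decide (p.unpair.2.unpair.1 = 65 * p.unpair.1) &&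
      decide (p.unpair.2.unpair.2 = 65 * p.unpair.1 + 1)) = true then 0 else 1) (by
    have u1 : Computable fun p : ℕ => p.unpair.1 := Computable.fst.comp Computable.unpair
    have u2 : Computable fun p : ℕ => p.unpair.2 := Computable.snd.comp Computable.unpair
    refine Q201.Comp.ite (Q201.Comp.and2 (Q201.Comp.eq2 (u1.comp u2)
      (Q201.Comp.mul2 (Computable.const 65) u1)) (Q201.Comp.eq2 (u2.comp u2)
      (Q201.Comp.succ1 (Q201.Comp.mul2 (Computable.const 65) u1)))) (Computable.const 0)
      (Computable.const 1))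
  have e5 := Nat.RecursiveIn.comp e4 (Nat.RecursiveIn.pair e3
    (Nat.RecursiveIn.pair (Nat.RecursiveIn.comp h0 e1) (Nat.RecursiveIn.comp h0 e2)))
  refine e5.of_eq fun k => ?_
  have hv : ∀ r < 2, Phi f h (65 * k + r) = 65 * k + act (h k) r := by
    intro r hr
    have h2 : (65 * k + r) % 65 = r := by omega
    have h3 : (65 * k + r) / 65 = k := by omega
    rw [Phi_apply, own, h2, h3, if_pos (by omega), mv, h2, h3]
  have hv0 := hv 0 (by norm_num)
  have hv1 := hv 1 (by norm_num)
  rw [Nat.add_zero] at hv0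
  simp only [Part.bind_eq_bind, Part.bind_some, Part.map_eq_map, Part.map_some, id_eq,
    Seq.seq, Nat.unpair_pair, hv0, hv1]
  congr 1
  by_cases hk : k ∈ Set.range f
  · rw [(hC k).2 hk, if_neg]
    · rfl
    · simp only [Bool.and_eq_true, decide_eq_true_eq, not_and_or]
      rcases key2 k hk with h1 | h1
      · left; omega
      · right; omega
  · have : C k = false := by
      simpa using mt (hC k).1 hk
    rw [this, if_pos]
    · rfl
    · have h1 := (inN_iff _).1 (key1 k hk)
      simp only [Bool.and_eq_true, decide_eq_true_eq]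
      rw [h1 0 (by norm_num), h1 1 (by norm_num)]
      omega

end Construction

/-- There are a Scott ideal `I` and a profinite subgroup `G` of `S_∞` with `deg(T_G) ∈ I` and a
quantifier free formula `ψ(x, y)` without parameters such that `∃ x ∀ y ψ(x, y)` holds in `G` and fails
in `G_I`; in particular `G_I ⪯_{∃∀} G` fails. -/
theorem result : ∃ (I : Set (ℕ → ℕ)) (hI : IsScottIdeal I) (G : Subgroup (Equiv.Perm ℕ)),
    IsProfinite G ∧ DegIn I G ∧
    (∃ ψ : grp.BoundedFormula Empty 2, ψ.IsQF ∧ G ⊨ ψ.all.ex ∧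
      ¬ (GI I hI.toIsTuringIdeal G ⊨ ψ.all.ex)) ∧
    ¬ ElemExistsForall (GI I hI.toIsTuringIdeal G) G (GI_le _ _ _) := by
  classical
  obtain ⟨f, hf, -, hK⟩ := Q201.Comp.exists_injective_noncomputable_range
  have hC : ¬ Computable (fun n => decide (n ∈ Set.range f)) := fun h =>
    hK ⟨inferInstance, h⟩
  obtain ⟨I, hI, hCI⟩ := exists_scott hC
  have h1 := holds_in_G f
  have h2 := fails_in_GI hf hI.toIsTuringIdeal (C := fun n => decide (n ∈ Set.range f))
    (fun k => by simp) hCI
  refine ⟨I, hI, G f, profinite f, degIn hI.toIsTuringIdeal hf, ⟨psi Empty, psi_isQF _, ?_, ?_⟩, ?_⟩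
  · exact (realize_theta _ _).2 h1
  · exact fun h => h2 ((realize_theta _ _).1 h)
  · intro h
    have h3 := h 0 (psi (Fin 0)).all.ex
      (.ex (.of_forall (.all (.of_qf (psi_isQF _))))) Fin.elim0
    exact h2 ((realize_theta _ _).1 (h3.2 ((realize_theta _ _).2 h1)))

end Pool.Agent.Results.MP_eef9c4_lc.ExistsForallFails
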